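import Pool.Agent.H28.MZ.Targets

/-!
# Module FI: the final theorem from the targets
-/

set_option autoImplicit false

open Complex MeasureTheory Set

namespace Pool.Agent.H28.PZ

open Pool.Agent.H28.MZ
open Pool.Agent.H23.GLH (PrimChar)

/-- orders of vanishing are finite on a half plane, when the function is not identically zero -/
theorem order_ne_top {f : ℂ → ℂ} {y : ℝ} (hf : ∀ s : ℂ, y < s.im → DifferentiableAt ℂ f s)
    {p : ℂ} (hp : y < p.im) (hfp : f p ≠ 0) {z : ℂ} (hz : y < z.im) :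
    analyticOrderAt f z ≠ ⊤ := by
  intro h
  rw [analyticOrderAt_eq_top] at h
  have hU : IsOpen {s : ℂ | y < s.im} := isOpen_lt continuous_const continuous_im
  have hA : AnalyticOnNhd ℂ f {s : ℂ | y < s.im} :=
    DifferentiableOn.analyticOnNhd (fun s hs => (hf s hs).differentiableWithinAt) hU
  have hc : IsPreconnected {s : ℂ | y < s.im} := (convex_halfSpace_im_gt y).isPreconnected
  have := hA.eqOn_zero_of_preconnected_of_eventuallyEq_zero hc hz h
  exact hfp (this hp)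

theorem sn_nonneg {T t : ℝ} (hT : 0 < T) (h1 : T ≤ t) (h2 : t ≤ 2 * T) : 0 ≤ sn T t := by
  unfold sn
  apply Real.sin_nonneg_of_nonneg_of_le_pi
  · have : 0 ≤ t - T := by linarith
    positivity
  · rw [div_le_iff₀ hT]
    have := Real.pi_pos
    nlinarith

theorem sn_le_one (T t : ℝ) : sn T t ≤ 1 := Real.sin_le_one _

theorem ph_ge {T x : ℝ} (hT : 0 < T) (hx : 0 ≤ x) : x ≤ ph T x := by
  unfold ph
  have hp := Real.pi_pos
  have h1 : 0 ≤ Real.pi * x / T := by positivity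
  have h2 := Real.self_le_sinh_iff.mpr h1
  calc x = T / Real.pi * (Real.pi * x / T) := by field_simp
    _ ≤ _ := by gcongr

theorem wl_refl (r τ : ℝ) (ρ : ℂ) :
    wl r τ (1 - (starRingEnd ℂ) ρ) = 1 - (starRingEnd ℂ) (wl r τ ρ) := by
  unfold wl
  simp only [map_add, map_mul, map_sub, conj_ofReal, conj_I, map_div₀, map_one, map_ofNat]
  ring

/-- symmetrisation -/
theorem symm_sum {T η : ℝ} (hT : 0 < T) (Z : Finset ℂ) (m : ℂ → ℕ)
    (hZ : ∀ ρ ∈ Z, 1 - (starRingEnd ℂ) ρ ∈ Z) (hm : ∀ ρ ∈ Z, m (1 - (starRingEnd ℂ) ρ) = m ρ)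
    (hI : ∀ ρ ∈ Z, T ≤ ρ.im ∧ ρ.im ≤ 2 * T) :
    η * ∑ ρ ∈ Z, (m ρ : ℝ) * sn T ρ.im ≤
      ∑ ρ ∈ Z, (m ρ : ℝ) * ph T (max 0 (ρ.re - (1 / 2 - η))) * sn T ρ.im := by
  set g : ℂ → ℝ := fun ρ => (m ρ : ℝ) * ph T (max 0 (ρ.re - (1 / 2 - η))) * sn T ρ.im with hg
  have h1 : ∑ ρ ∈ Z, g ρ = ∑ ρ ∈ Z, g (1 - (starRingEnd ℂ) ρ) := by
    symm
    apply Finset.sum_nbij' (fun ρ => 1 - (starRingEnd ℂ) ρ) (fun ρ => 1 - (starRingEnd ℂ) ρ)
    · exact hZ
    · exact hZ
    · intro ρ _; simp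
    · intro ρ _; simp
    · intro ρ _; rfl
  have h2 : 2 * ∑ ρ ∈ Z, g ρ = ∑ ρ ∈ Z, (g ρ + g (1 - (starRingEnd ℂ) ρ)) := by
    rw [Finset.sum_add_distrib, ← h1]; ring
  have h3 : ∑ ρ ∈ Z, (m ρ : ℝ) * (2 * η) * sn T ρ.im ≤
      ∑ ρ ∈ Z, (g ρ + g (1 - (starRingEnd ℂ) ρ)) := by
    apply Finset.sum_le_sum
    intro ρ hρ
    simp only [hg]
    rw [hm ρ hρ]
    have him : (1 - (starRingEnd ℂ) ρ).im = ρ.im := by simp
    have hre : (1 - (starRingEnd ℂ) ρ).re = 1 - ρ.re := by simp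
    rw [him, hre]
    have hs := sn_nonneg hT (hI ρ hρ).1 (hI ρ hρ).2
    have e1 := ph_ge hT (le_max_left 0 (ρ.re - (1 / 2 - η)))
    have e2 := ph_ge hT (le_max_left 0 (1 - ρ.re - (1 / 2 - η)))
    have e3 := le_max_right 0 (ρ.re - (1 / 2 - η))
    have e4 := le_max_right 0 (1 - ρ.re - (1 / 2 - η))
    have e5 : 2 * η ≤ ph T (max 0 (ρ.re - (1 / 2 - η))) +
        ph T (max 0 (1 - ρ.re - (1 / 2 - η))) := by linarith
    have hmn : (0 : ℝ) ≤ m ρ := Nat.cast_nonneg _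
    calc (m ρ : ℝ) * (2 * η) * sn T ρ.im ≤ (m ρ : ℝ) *
          (ph T (max 0 (ρ.re - (1 / 2 - η))) + ph T (max 0 (1 - ρ.re - (1 / 2 - η)))) *
            sn T ρ.im := by gcongr
      _ = _ := by ring
  have h4 : ∑ ρ ∈ Z, (m ρ : ℝ) * (2 * η) * sn T ρ.im =
      2 * (η * ∑ ρ ∈ Z, (m ρ : ℝ) * sn T ρ.im) := by
    rw [Finset.mul_sum, Finset.mul_sum]
    apply Finset.sum_congr rfl
    intro ρ _; ring
  have h5 : ∑ ρ ∈ Z, (m ρ : ℝ) * ph T (max 0 (ρ.re - (1 / 2 - η))) * sn T ρ.im =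
      ∑ ρ ∈ Z, g ρ := rfl
  rw [h5]
  linarith

/-- growth of powers of the logarithm -/
theorem ev_log (A : ℝ) (B : ℝ) (hB : 0 < B) :
    ∀ᶠ T : ℝ in Filter.atTop, A * (Real.log T) ^ 3 ≤ B * T := by
  have h := (Real.isLittleO_pow_log_id_atTop (n := 3)).def (c := B / (|A| + 1)) (by positivity)
  filter_upwards [h, Filter.eventually_ge_atTop 1] with T hT h1
  have hlog : 0 ≤ Real.log T := Real.log_nonneg h1
  simp only [id, Real.norm_eq_abs, abs_pow] at hT
  rw [abs_of_nonneg hlog, abs_of_nonneg (by linarith : (0:ℝ) ≤ T)] at hT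
  have h3 : 0 ≤ (Real.log T) ^ 3 := by positivity
  have hA := le_abs_self A
  have hA0 := abs_nonneg A
  calc A * (Real.log T) ^ 3 ≤ (|A| + 1) * (Real.log T) ^ 3 := by
        apply mul_le_mul_of_nonneg_right _ h3; linarith
    _ ≤ (|A| + 1) * (B / (|A| + 1) * T) := by gcongr
    _ = B * T := by field_simp

theorem two_rpow_log {T : ℝ} (hT : 1 ≤ T) : (2 : ℝ) ^ (1 - 4 * Real.log T) ≤ 2 * T ^ (-2 : ℝ) := by
  have hT0 : 0 < T := by linarith
  rw [Real.rpow_sub (by norm_num), Real.rpow_one, Real.rpow_neg hT0.le, div_eq_mul_inv]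
  apply mul_le_mul_of_nonneg_left _ (by norm_num)
  apply inv_anti₀ (by positivity)
  have h1 : T ^ (2 : ℝ) = Real.exp (2 * Real.log T) := by
    rw [Real.rpow_def_of_pos hT0]; ring_nf
  have h2 : (2 : ℝ) ^ (4 * Real.log T) = Real.exp (Real.log 2 * (4 * Real.log T)) := by
    rw [Real.rpow_def_of_pos (by norm_num)]
  rw [h1, h2]
  apply Real.exp_le_exp.mpr
  have h3 : (1 / 2 : ℝ) ≤ Real.log 2 := by
    have := Real.log_two_gt_d9; linarith
  have h4 : 0 ≤ Real.log T := Real.log_nonneg hT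
  nlinarith

theorem sinh_le {x : ℝ} (h0 : 0 ≤ x) (h1 : x ≤ 1) : Real.sinh x ≤ 2 * x := by
  have h2 : Real.exp x - 1 ≤ 2 * x := by
    have := Real.abs_exp_sub_one_le (x := x) (by rw [abs_of_nonneg h0]; exact h1)
    rw [abs_of_nonneg h0] at this
    exact (le_abs_self _).trans this
  have h3 : 1 - x ≤ Real.exp (-x) := by
    have := Real.add_one_le_exp (-x); linarith
  rw [Real.sinh_eq]
  linarith

theorem cosh_le {x : ℝ} (h0 : 0 ≤ x) (h1 : x ≤ 1) : Real.cosh x ≤ 2 := by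
  have h2 : Real.exp x - 1 ≤ 2 * x := by
    have := Real.abs_exp_sub_one_le (x := x) (by rw [abs_of_nonneg h0]; exact h1)
    rw [abs_of_nonneg h0] at this
    exact (le_abs_self _).trans this
  have h3 : Real.exp (-x) ≤ 1 := Real.exp_le_one_iff.mpr (by linarith)
  rw [Real.cosh_eq]
  linarith

/-- the error term in (JI) is small -/
theorem err_small (CG CR B : ℝ) (hCG : 0 ≤ CG) (hCR : 0 ≤ CR) (hB : 0 < B) :
    ∃ T₀ : ℝ, ∀ T a : ℝ, T₀ ≤ T → 0 ≤ a → a ≤ 1 →
      2 * (4 * Real.log T - a) * Real.sinh (Real.pi * (4 * Real.log T - a) / T) *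
          Real.log (T ^ CG) +
        4 * (T + 2) * T * Real.cosh (Real.pi * (4 * Real.log T - a) / T) *
          (CR * (2 : ℝ) ^ (1 - 4 * Real.log T)) ≤ B * T := by
  have h1 := ev_log (256 * CG) (B / 2) (by positivity)
  have h2 := ev_log 16 1 one_pos
  have h3 := Filter.eventually_ge_atTop (max 3 (100 * CR / B))
  obtain ⟨T₀, hT₀⟩ := Filter.eventually_atTop.mp (h1.and (h2.and h3))
  refine ⟨T₀, fun T a hT ha0 ha1 => ?_⟩
  obtain ⟨e1, e2, e3⟩ := hT₀ T hT
  have hT3 : 3 ≤ T := (le_max_left _ _).trans e3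
  have hTB : 100 * CR / B ≤ T := (le_max_right _ _).trans e3
  have hT0 : 0 < T := by linarith
  have hlog1 : 1 ≤ Real.log T := by
    rw [Real.le_log_iff_exp_le hT0]
    have := Real.exp_one_lt_d9
    linarith
  have hpi := Real.pi_pos
  have hpi4 := Real.pi_le_four
  have hlog3 : Real.log T ≤ Real.log T ^ 3 := by nlinarith [sq_nonneg (Real.log T - 1), sq_nonneg (Real.log T)]
  set x := Real.pi * (4 * Real.log T - a) / T with hx
  have hd0 : 0 ≤ 4 * Real.log T - a := by linarith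
  have hx0 : 0 ≤ x := by positivity
  have hx16 : x ≤ 16 * Real.log T / T := by
    rw [hx]
    apply div_le_div_of_nonneg_right _ hT0.le
    nlinarith
  have hx1 : x ≤ 1 := by
    refine hx16.trans ?_
    rw [div_le_one hT0]
    nlinarith
  have hs := sinh_le hx0 hx1
  have hs0 : 0 ≤ Real.sinh x := Real.sinh_nonneg_iff.mpr hx0
  have hc := cosh_le hx0 hx1
  have hc0 : 0 < Real.cosh x := Real.cosh_pos x
  have hlogT : Real.log (T ^ CG) = CG * Real.log T := Real.log_rpow hT0 CG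
  have hrp := two_rpow_log (T := T) (by linarith)
  have hrp0 : 0 < (2 : ℝ) ^ (1 - 4 * Real.log T) := by positivity
  have hT2 : T ^ (-2 : ℝ) = 1 / T ^ 2 := by
    rw [Real.rpow_neg hT0.le]; norm_num
  rw [hT2] at hrp
  have p1 : 2 * (4 * Real.log T - a) * Real.sinh x * Real.log (T ^ CG) ≤ B / 2 * T := by
    rw [hlogT]
    calc 2 * (4 * Real.log T - a) * Real.sinh x * (CG * Real.log T)
        ≤ 2 * (4 * Real.log T) * (2 * (16 * Real.log T / T)) * (CG * Real.log T) := by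
          gcongr
          · linarith
          · linarith
      _ = 256 * CG * Real.log T ^ 3 / T := by ring
      _ ≤ (B / 2 * T) / T := by gcongr
      _ ≤ B / 2 * T := by
        rw [mul_div_assoc, div_self hT0.ne']
        nlinarith
  have p2 : 4 * (T + 2) * T * Real.cosh x * (CR * (2 : ℝ) ^ (1 - 4 * Real.log T)) ≤
      B / 2 * T := by
    calc 4 * (T + 2) * T * Real.cosh x * (CR * (2 : ℝ) ^ (1 - 4 * Real.log T))
        ≤ 4 * (T + T) * T * 2 * (CR * (2 * (1 / T ^ 2))) := by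
          gcongr
          linarith
      _ = 32 * CR := by field_simp; ring
      _ ≤ B / 2 * T := by
        rw [div_le_iff₀ hB] at hTB
        nlinarith
  linarith

theorem aux_le {o m s : ℝ} (ho : 0 ≤ o) (hm : 0 ≤ m) (hs0 : 0 ≤ s) (hs1 : s ≤ 1) :
    o * s - m * s ≤ o := by
  nlinarith [mul_nonneg hm hs0, mul_nonneg ho (sub_nonneg.mpr hs1)]

set_option maxHeartbeats 2000000 in
/-- (FI) -/
theorem fi (h1 : T_IU) (h2 : T_JI) (h3 : T_NL) (h4 : T_OR) (h5 : T_UR) (h6 : T_UG) : T_FI := by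
  classical
  intro χ ψ r hr1 hr2
  obtain ⟨R, c, c₀, T₁, hR, hc, hc2, hc₀, hc₀', hIU⟩ := h1 χ ψ r hr1 hr2
  obtain ⟨CR, hCR, hUR⟩ := h5
  obtain ⟨CG, T₂, hCG, hUG⟩ := h6 χ ψ r hr1 (by linarith)
  have hR0 : 0 < R := by linarith
  obtain ⟨T₃, hNL⟩ := h3 χ (c / (8 * R)) (by positivity)
  have hpi := Real.pi_pos
  obtain ⟨T₄, hE⟩ := err_small CG CR (c / (4 * Real.pi)) hCG.le hCR.le (by positivity)
  refine ⟨c / (4 * R * Real.pi ^ 2), c₀,
    max (max T₁ T₂) (max (max T₃ T₄) (max (Real.exp (4 * R)) (8 * CR + 3))), by positivity, hc₀, ?_⟩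
  intro T τ hT hτ
  simp only [max_le_iff] at hT
  obtain ⟨⟨hT1, hT2⟩, ⟨hT3, hT4⟩, hT5, hT6⟩ := hT
  have hT7 : 3 ≤ T := by linarith
  have hT0 : 0 < T := by linarith
  have hlog : 4 * R ≤ Real.log T := (Real.le_log_iff_exp_le hT0).mpr hT5
  have hlog0 : 0 < Real.log T := by linarith
  obtain ⟨P, hPr, hPτ, hPη, hPc0, hPc1, hM1, hM2, hY1, hY2, hY1', hY2', hms⟩ := hIU T τ hT1 hτ
  have hη0 : 0 < P.η := by rw [hPη]; positivity
  have hη1 : P.η ≤ 1 / 4 := by
    rw [hPη, div_le_iff₀ hlog0]; linarith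
  have hτ4 : |P.τ| ≤ T / 4 := by rw [hPτ]; nlinarith
  obtain ⟨hdiff, hgrow, hord⟩ := hUG T P hT2 hPr hτ4 hη0.le (by linarith) hPc0 hPc1 hM1 hM2 hY1' hY2'
  obtain ⟨Z, hZ, hZc⟩ := hNL T hT3
  have hwim : ∀ s : ℂ, T / 2 < s.im → 0 < (wl r τ s).im := by
    intro s hs
    have : (wl r τ s).im = r * s.im + τ := by
      unfold wl; simp
    rw [this]
    rw [hPτ] at hτ4
    have := neg_abs_le τ
    nlinarith
  set m : ℂ → ℕ := fun ρ => min (analyticOrderNatAt χ.L ρ) (analyticOrderNatAt ψ.L (wl r τ ρ))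
    with hm
  -- right side
  have hb3 : 4 * Real.log T - 1 ≥ 3 := by linarith
  have hURb : ∀ s : ℂ, 4 * Real.log T - 1 ≤ s.re →
      ‖U χ ψ P s - 1‖ ≤ CR * (2 : ℝ) ^ (1 - 4 * Real.log T) := by
    intro s hs
    refine (hUR χ ψ P s (by rw [hPr]; exact hr1.le) hη0.le hPc0 hPc1 hM1 hM2 hY1 hY2
      (by linarith)).trans ?_
    gcongr
    · norm_num
    · linarith
  have he4 : CR * (2 : ℝ) ^ (1 - 4 * Real.log T) ≤ 1 / 4 := by
    have e1 := two_rpow_log (T := T) (by linarith)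
    have e2 : T ^ (-2 : ℝ) ≤ 1 / T := by
      rw [Real.rpow_neg hT0.le, one_div]
      apply inv_anti₀ hT0
      have : T ^ (2 : ℝ) = T ^ 2 := by norm_num
      rw [this]; nlinarith
    calc CR * (2 : ℝ) ^ (1 - 4 * Real.log T) ≤ CR * (2 * (1 / T)) := by
          gcongr; linarith
      _ = 2 * CR / T := by ring
      _ ≤ 1 / 4 := by
        rw [div_le_iff₀ hT0]; linarith
  -- orders of `U` are finite
  have hUfin : ∀ z : ℂ, T / 2 < z.im → analyticOrderAt (U χ ψ P) z ≠ ⊤ := by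
    intro z hz
    apply order_ne_top hdiff (p := (4 * Real.log T : ℝ) + T * I) _ _ hz
    · simp; linarith
    · intro h0
      have h7 := hURb ((4 * Real.log T : ℝ) + T * I) (by simp)
      rw [h0, zero_sub, norm_neg, norm_one] at h7
      linarith
  have hmord : ∀ ρ : ℂ, T / 2 < ρ.im → m ρ ≤ analyticOrderNatAt (U χ ψ P) ρ := by
    intro ρ hρ
    have e1 := hord ρ hρ
    rw [hPr, hPτ] at e1
    rw [← Nat.cast_analyticOrderNatAt (h4 χ ρ (by linarith)).2,
      ← Nat.cast_analyticOrderNatAt (h4 ψ (wl r τ ρ) (hwim ρ hρ)).2,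
      ← Nat.cast_analyticOrderNatAt (hUfin ρ hρ)] at e1
    rcases min_le_iff.mp e1 with h | h
    · exact (min_le_left _ _).trans (by exact_mod_cast h)
    · exact (min_le_right _ _).trans (by exact_mod_cast h)
  have hJI := h2 (U χ ψ P) (1 / 2 - P.η) (4 * Real.log T) T (T ^ CG)
    (CR * (2 : ℝ) ^ (1 - 4 * Real.log T)) (Real.exp (2 * R) * (1 - c)) Z m (by linarith)
    (by linarith) (Real.one_le_rpow (by linarith) hCG.le) (by positivity) he4
    (mul_pos (Real.exp_pos _) (by linarith)) hdiff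
    (fun s hs1 _ hs3 hs4 => hgrow s (by linarith) hs3 hs4)
    (fun s hs1 _ _ _ => hURb s hs1) hms
    (fun ρ hρ => by
      have := (hZ ρ).mp hρ
      exact ⟨this.2.2.1, this.2.2.2.1, by linarith [this.2.1], hmord ρ (by linarith [this.2.2.1])⟩)
  have herr := hE T (1 / 2 - P.η) hT4 (by linarith) (by linarith)
  have hsym := symm_sum (η := P.η) hT0 Z m
    (fun ρ hρ => by
      obtain ⟨e1, e2, e3, e4, e5⟩ := (hZ ρ).mp hρ
      rw [hZ]
      refine ⟨by simp; linarith, by simp; linarith, by simpa using e3, by simpa using e4, ?_⟩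
      have h7 := (h4 χ ρ (by linarith)).1
      by_contra h8
      have h9 : analyticOrderAt χ.L (1 - (starRingEnd ℂ) ρ) = 0 := by
        by_cases hA : AnalyticAt ℂ χ.L (1 - (starRingEnd ℂ) ρ)
        · exact hA.analyticOrderAt_eq_zero.mpr h8
        · exact analyticOrderAt_of_not_analyticAt hA
      rw [h9] at h7
      have hA : AnalyticAt ℂ χ.L ρ := by
        have : DifferentiableOn ℂ χ.L {s : ℂ | 0 < s.im} := by
          intro s hs
          have hs0 : (0 : ℝ) < s.im := hs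
          have := χ.q_ne
          refine (DirichletCharacter.differentiableAt_LFunction _ _
            (Or.inl ?_)).differentiableWithinAt
          rintro rfl
          simp at hs0
        exact this.analyticAt ((isOpen_lt continuous_const continuous_im).mem_nhds
          (by show (0 : ℝ) < ρ.im; linarith))
      exact (hA.analyticOrderAt_eq_zero.mp h7) e5)
    (fun ρ hρ => by
      obtain ⟨e1, e2, e3, e4, e5⟩ := (hZ ρ).mp hρ
      show min (analyticOrderNatAt χ.L _) (analyticOrderNatAt ψ.L (wl r τ _)) =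
        min (analyticOrderNatAt χ.L ρ) (analyticOrderNatAt ψ.L (wl r τ ρ))
      have a1 := (h4 χ ρ (by linarith)).1
      have a2 := (h4 ψ (wl r τ ρ) (hwim ρ (by linarith))).1
      unfold analyticOrderNatAt
      rw [a1, wl_refl, ← a2])
    (fun ρ hρ => by
      have := (hZ ρ).mp hρ
      exact ⟨this.2.2.1.le, this.2.2.2.1.le⟩)
  -- combine
  have hlogQ : Real.log (Real.exp (2 * R) * (1 - c)) ≤ 2 * R - c := by
    rw [Real.log_mul (Real.exp_pos _).ne' (by linarith), Real.log_exp]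
    have := Real.log_le_sub_one_of_pos (show 0 < 1 - c by linarith)
    linarith
  set A := ∑ ρ ∈ Z, (m ρ : ℝ) * sn T ρ.im with hA
  set B := ∑ ρ ∈ Z, (analyticOrderNatAt χ.L ρ : ℝ) * sn T ρ.im with hB
  have hkey : 2 * Real.pi * (P.η * A) ≤ T / Real.pi * (2 * R - c) + c / (4 * Real.pi) * T := by
    have e0 : 2 * Real.pi * ∑ ρ ∈ Z, (m ρ : ℝ) * ph T (max 0 (ρ.re - (1 / 2 - P.η))) * sn T ρ.im =
        2 * Real.pi * (∑ ρ ∈ Z, (m ρ : ℝ) * ph T (max 0 (ρ.re - (1 / 2 - P.η))) * sn T ρ.im) := rfl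
    have e1 : 2 * Real.pi * (P.η * A) ≤ 2 * Real.pi *
        ∑ ρ ∈ Z, (m ρ : ℝ) * ph T (max 0 (ρ.re - (1 / 2 - P.η))) * sn T ρ.im :=
      mul_le_mul_of_nonneg_left hsym (by positivity)
    have e2 : T / Real.pi * Real.log (Real.exp (2 * R) * (1 - c)) ≤ T / Real.pi * (2 * R - c) :=
      mul_le_mul_of_nonneg_left hlogQ (by positivity)
    linarith
  have hAle : A ≤ T * Real.log T / Real.pi ^ 2 * (1 - 3 * c / (8 * R)) := by
    have e1 : P.η = R / Real.log T := hPη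
    rw [e1] at hkey
    have e2 : A = (2 * Real.pi * (R / Real.log T * A)) * (Real.log T / (2 * Real.pi * R)) := by
      field_simp
    rw [e2]
    calc (2 * Real.pi * (R / Real.log T * A)) * (Real.log T / (2 * Real.pi * R))
        ≤ (T / Real.pi * (2 * R - c) + c / (4 * Real.pi) * T) *
            (Real.log T / (2 * Real.pi * R)) := by gcongr
      _ = _ := by field_simp; ring
  have hdiffAB : c / (4 * R * Real.pi ^ 2) * (T * Real.log T) ≤ B - A := by
    have e1 : c / (4 * R * Real.pi ^ 2) * (T * Real.log T) =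
        (1 - c / (8 * R)) * (T * Real.log T / Real.pi ^ 2) -
          T * Real.log T / Real.pi ^ 2 * (1 - 3 * c / (8 * R)) := by
      field_simp; ring
    rw [e1]
    linarith
  refine ⟨Z.filter fun ρ => analyticOrderAt ψ.L (1 / 2 + r * (ρ - 1 / 2) + τ * I) <
    analyticOrderAt χ.L ρ, ?_, ?_⟩
  · intro ρ hρ
    rw [Finset.mem_filter] at hρ
    obtain ⟨e1, e2, e3, e4, e5⟩ := (hZ ρ).mp hρ.1
    exact ⟨e3, e4, e1, e2, e5, hρ.2⟩
  · refine hdiffAB.trans ?_
    rw [hA, hB, ← Finset.sum_sub_distrib, Finset.sum_filter]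
    apply Finset.sum_le_sum
    intro ρ hρ
    obtain ⟨e1, e2, e3, e4, e5⟩ := (hZ ρ).mp hρ
    have hs0 := sn_nonneg hT0 e3.le e4.le
    have hs1 := sn_le_one T ρ.im
    have hm0 : (0 : ℝ) ≤ m ρ := Nat.cast_nonneg _
    have ho0 : (0 : ℝ) ≤ analyticOrderNatAt χ.L ρ := Nat.cast_nonneg _
    by_cases hex : analyticOrderAt ψ.L (1 / 2 + r * (ρ - 1 / 2) + τ * I) < analyticOrderAt χ.L ρ
    · rw [if_pos hex]
      exact aux_le ho0 hm0 hs0 hs1
    · rw [if_neg hex]
      have e6 : m ρ = analyticOrderNatAt χ.L ρ := by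
        show min (analyticOrderNatAt χ.L ρ) (analyticOrderNatAt ψ.L (wl r τ ρ)) = _
        apply min_eq_left
        have e7 : analyticOrderAt χ.L ρ ≤ analyticOrderAt ψ.L (wl r τ ρ) := not_lt.mp hex
        rw [← Nat.cast_analyticOrderNatAt (h4 χ ρ (by linarith)).2,
          ← Nat.cast_analyticOrderNatAt (h4 ψ (wl r τ ρ) (hwim ρ (by linarith))).2] at e7
        exact_mod_cast e7
      rw [e6, sub_self]

end Pool.Agent.H28.PZ
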