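import Pool.Agent.H28.MZ.Targets
import Pool.Agent.H2.PZ.CV
import Pool.Agent.H2.PZ.GL
import Pool.Agent.H2.PZ.MX
import Pool.Agent.H2.PZ.VV
import Pool.Agent.H11.PZ.FT4
import Pool.Agent.H11.PZ.NT5
import Pool.Agent.H11.PZ.PN
import Pool.Agent.H11.PZ.PO
import Pool.Agent.H18.PZ.CA
import Pool.Agent.H18.PZ.JI
import Pool.Agent.H18.PZ.LH
import Pool.Agent.H18.PZ.NL
import Pool.Agent.H18.PZ.RC
import Pool.Agent.H26.PZ.QA
import Pool.Agent.H26.PZ.QR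
import Pool.Agent.H27.PZ.E3
import Pool.Agent.H27.PZ.EX
import Pool.Agent.H27.PZ.IU
import Pool.Agent.H28.PZ.FI
import Pool.Agent.H29.PZ.DD
import Pool.Agent.H29.PZ.LG
import Pool.Agent.H29.PZ.OR
import Pool.Agent.H29.PZ.PS
import Pool.Agent.H29.PZ.XA
import Pool.Agent.H32.PZ.KS
import Pool.Agent.H32.PZ.VS
import Pool.Agent.H42.PZ.MM
import Pool.Agent.H42.PZ.O1
import Pool.Agent.H42.PZ.O2
import Pool.Agent.H42.PZ.TW
import Pool.Agent.H42.PZ.WF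
import Pool.Agent.H58.MZ.AF
import Pool.Agent.H58.MZ.SH
import Pool.Agent.H58.MZ.SM
import Pool.Agent.H58.MZ.SY
import Pool.Agent.H63.PZ.TH
import Pool.Agent.H63.PZ.TV
import Pool.Agent.H63.PZ.UG
import Pool.Agent.H70.PZ.UR
import Pool.Agent.H70.PZ.ZQ
import Pool.Agent.H76.PZ.E1
import Pool.Agent.H76.PZ.E2

/-!
# Assembly of the modules
-/

set_option autoImplicit false

namespace Pool.Agent.H28.PZ.All

open Pool.Agent.H28.MZ

theorem rc : T_RC := Pool.Agent.H18.PZ.rc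
theorem ca : T_CA := Pool.Agent.H18.PZ.ca rc
theorem ji : T_JI := Pool.Agent.H18.PZ.ji ca
theorem lh : T_LH := Pool.Agent.H18.PZ.lh ca
theorem th : T_TH := Pool.Agent.H63.PZ.TH.th
theorem tv : T_TV := Pool.Agent.H63.PZ.TV.tv
theorem ug : T_UG := Pool.Agent.H63.PZ.ug
theorem xa : T_XA := Pool.Agent.H29.PZ.xa th
theorem or' : T_OR := Pool.Agent.H29.PZ.or'
theorem vv : T_VV := Pool.Agent.H2.PZ.vv
theorem mx : T_MX := Pool.Agent.H2.PZ.mx
theorem cv : T_CV := Pool.Agent.H2.PZ.cv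
theorem gl : T_GL := Pool.Agent.H2.PZ.gl
theorem sh : T_SH := Pool.Agent.H58.MZ.sh vv
theorem sy : T_SY := Pool.Agent.H58.MZ.sy vv sh
theorem af : T_AF := Pool.Agent.H58.MZ.af th vv rc
theorem sm : T_SM := Pool.Agent.H58.MZ.sm vv rc
theorem lg : T_LG := Pool.Agent.H29.PZ.lg
theorem ub : T_UB := Pool.Agent.H29.PZ.ub
theorem dd : T_DD := Pool.Agent.H29.PZ.dd
theorem ps : T_PS := Pool.Agent.H29.PZ.ps
theorem zq : T_ZQ := Pool.Agent.H70.PZ.zq_t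
theorem ur : T_UR := Pool.Agent.H70.PZ.ur
theorem qa : T_QA := Pool.Agent.H26.PZ.qa
theorem qr : T_QR := Pool.Agent.H26.PZ.qr zq
theorem qb : T_QB := Pool.Agent.H29.PZ.qb qa qr zq
theorem wf : T_WF := Pool.Agent.H42.PZ.wf
theorem o1 : T_O1 := Pool.Agent.H42.PZ.o1 vv lg wf
theorem o2 : T_O2 := Pool.Agent.H42.PZ.o2 vv lg wf
theorem tw : T_TW := Pool.Agent.H42.PZ.tw af wf o1 o2 dd sy
theorem mm : T_MM := Pool.Agent.H42.PZ.mm af wf o1 o2 tw ps zq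
theorem vs : T_VS := Pool.Agent.H32.PZ.vs
theorem ks : T_KS := Pool.Agent.H32.PZ.ks vs vv
theorem pn : T_PN := Pool.Agent.H11.PZ.pn
theorem ft : T_FT := Pool.Agent.H11.PZ.ft
theorem po : T_PO := Pool.Agent.H11.PZ.po pn ft
theorem nt : T_NT := Pool.Agent.H11.PZ.nt po ks vv
theorem ex : T_EX := Pool.Agent.H27.PZ.ex sm gl vv
theorem e1 : T_E1 := Pool.Agent.H76.PZ.e1 xa mm qb mx ub
theorem e2 : T_E2 := Pool.Agent.H76.PZ.e2 xa mm qb ub
theorem e3 : T_E3 := Pool.Agent.H27.PZ.e3 ex tv nt vv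
theorem iu : T_IU := Pool.Agent.H27.PZ.iu e1 e2 e3 cv

theorem nl : T_NL := Pool.Agent.H18.PZ.nl ca lh xa or'

/-- The final theorem. -/
theorem fi : T_FI := Pool.Agent.H28.PZ.fi iu ji nl or' ur ug

end Pool.Agent.H28.PZ.All
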